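import Pool.Agent.EN2P.Coord
import Pool.Agent.EN2.Best
import Pool.Agent.DIS.InterfaceP

/-!
# END-2 in all characteristics
-/

set_option autoImplicit false

noncomputable section

namespace Pool.Agent.EN2P

open IsLocalRing Pool.Agent.ClaimF Pool.Agent.SRF Pool.Agent.DIS Pool.Agent.XV Pool.Agent.FRM
  Pool.Agent.EN2
open MvPolynomial (aeval eval₂ IsHomogeneous)

section hg

open Polynomial

variable {p : ℕ}

/-- the homogenisation of a polynomial -/
def hg {A : Type} [CommRing A] (S : ℤ[X]) (n : ℕ) (a d : A) : A :=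
  ∑ k ∈ Finset.range (n + 1), (S.coeff k : A) * (a ^ k * d ^ (n - k))

lemma hg_map {A B : Type} [CommRing A] [CommRing B] (φ : A →+* B) (S : ℤ[X]) (n : ℕ) (a d : A) :
    φ (hg S n a d) = hg S n (φ a) (φ d) := by
  simp [hg]

lemma hg_field {L : Type} [Field L] (S : ℤ[X]) (n : ℕ) (hS : S.natDegree ≤ n) (a d : L)
    (hd : d ≠ 0) : hg S n a d = d ^ n * eval₂ (Int.castRingHom L) (a / d) S := by
  rw [eval₂_eq_sum_range' _ (Nat.lt_succ_of_le hS), hg, Finset.mul_sum]
  refine Finset.sum_congr rfl fun k hk => ?_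
  have hk' : k ≤ n := Nat.lt_succ_iff.mp (Finset.mem_range.mp hk)
  have h1 : d ^ n = d ^ (n - k) * d ^ k := by rw [← pow_add, Nat.sub_add_cancel hk']
  have h2 := pow_ne_zero k hd
  rw [eq_intCast, h1, div_pow]
  field_simp

/-- the polynomial `(X ^ p + (1 - X) ^ p - 1) / p` -/
lemma exists_Sp (hp : p.Prime) : ∃ S : ℤ[X], C (p : ℤ) * S = X ^ p + (1 - X) ^ p - 1 := by
  obtain ⟨r, hr⟩ := exists_add_pow_prime_eq hp (X : ℤ[X]) (1 - X)
  refine ⟨-(X * (1 - X) * r), ?_⟩
  have h2 : (X + (1 - X) : ℤ[X]) = 1 := by ring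
  have h3 : (C (p : ℤ) : ℤ[X]) = (p : ℤ[X]) := by simp
  rw [h2, one_pow] at hr
  rw [h3]
  linear_combination hr

lemma Sp_deg (hp : p.Prime) {S : ℤ[X]} (hS : C (p : ℤ) * S = X ^ p + (1 - X) ^ p - 1) :
    S.natDegree ≤ p := by
  have h1 : (C (p : ℤ) * S).natDegree = S.natDegree :=
    natDegree_C_mul (by exact_mod_cast hp.ne_zero)
  rw [← h1, hS]
  refine (natDegree_sub_le _ _).trans (max_le ((natDegree_add_le _ _).trans (max_le ?_ ?_)) ?_)
  · rw [natDegree_X_pow]
  · refine natDegree_pow_le.trans ?_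
    have : (1 - X : ℤ[X]).natDegree ≤ 1 := by
      refine (natDegree_sub_le _ _).trans (max_le ?_ ?_)
      · rw [natDegree_one]
        exact Nat.zero_le _
      · rw [natDegree_X]
    calc p * (1 - X : ℤ[X]).natDegree ≤ p * 1 := Nat.mul_le_mul_left _ this
      _ = p := mul_one _
  · rw [natDegree_one]
    exact Nat.zero_le _

/-- the homogeneous version of the defining equation -/
lemma Sp_hom (hp : p.Prime) {S : ℤ[X]} (hS : C (p : ℤ) * S = X ^ p + (1 - X) ^ p - 1)
    {σ : Type} (a d : σ) : MvPolynomial.C (p : ℤ) *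
      hg S p (MvPolynomial.X a : MvPolynomial σ ℤ) (MvPolynomial.X d) =
      MvPolynomial.X a ^ p + (MvPolynomial.X d - MvPolynomial.X a) ^ p - MvPolynomial.X d ^ p := by
  let Q := FractionRing (MvPolynomial σ ℤ)
  apply IsFractionRing.injective (MvPolynomial σ ℤ) Q
  have hC : (MvPolynomial.C (p : ℤ) : MvPolynomial σ ℤ) = (p : MvPolynomial σ ℤ) := by simp
  have hC' : (C (p : ℤ) : ℤ[X]) = (p : ℤ[X]) := by simp
  rw [hC, map_mul, hg_map]
  set A := algebraMap (MvPolynomial σ ℤ) Q (MvPolynomial.X a) with hA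
  set D := algebraMap (MvPolynomial σ ℤ) Q (MvPolynomial.X d) with hD
  have hD0 : D ≠ 0 := by
    rw [hD, Ne, map_eq_zero_iff _ (IsFractionRing.injective (MvPolynomial σ ℤ) Q)]
    exact MvPolynomial.X_ne_zero d
  rw [hg_field S p (Sp_deg hp hS) A D hD0]
  have h1 := congrArg (eval₂ (Int.castRingHom Q) (A / D)) hS
  rw [hC', eval₂_mul, eval₂_natCast, eval₂_sub, eval₂_add, eval₂_pow, eval₂_pow, eval₂_sub,
    eval₂_one, eval₂_X] at h1
  have h2 : algebraMap (MvPolynomial σ ℤ) Q (p : MvPolynomial σ ℤ) = (p : Q) := map_natCast _ _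
  rw [h2, map_sub, map_add, map_pow, map_pow, map_sub, map_pow, ← hA, ← hD]
  have h3 : D ^ p * (A / D) ^ p = A ^ p := by
    rw [← mul_pow, mul_div_cancel₀ _ hD0]
  have h4 : D ^ p * (1 - A / D) ^ p = (D - A) ^ p := by
    rw [← mul_pow, mul_sub, mul_one, mul_div_cancel₀ _ hD0]
  linear_combination D ^ p * h1 + h3 + h4

end hg

variable {K : Type} [Field K] {F : Type} [Field F] [Algebra K F] {J : Type} {p : ℕ}
  [Fact p.Prime]
variable {E : Eqs p XV.N J} {O : ValuationSubring K} {x y : F} {t : K} {X : Fin (XV.N + 1) → F}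

/-- functions with poles on curves in the tubes of a pencil -/
lemma CD.reg (D : CD E O x y t X) (CC : Edge → Finset (PP K x y))
    (htub : ∀ s, ∀ e ∈ CC s, InTube O x y X {i | 1 ≤ (XV.pt i).e s} e.1)
    (q : Fin 5) (a₀ a₁ : Fin 3) (A : Finset Edge)
    (hA : ∀ s ∈ A, (s = (Pool.Agent.EN2.mk q a₀).1 ∨ s = (Pool.Agent.EN2.mk q a₀).2) ∨ (s = (Pool.Agent.EN2.mk q a₁).1 ∨ s = (Pool.Agent.EN2.mk q a₁).2))
    (f : F) (hf : RegOff x y CC A f) (d : Cm q) :
    f ∈ Rj D.hO D.surf (cp X (ptm d a₀)) (cp X (ptm d a₁)) (D.coord _) (D.coord _) := by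
  classical
  refine mem_Rj_of (A.biUnion CC) ?_ f fun e he => hf e fun s hs hes =>
    he (Finset.mem_biUnion.mpr ⟨s, hs, hes⟩)
  intro e he
  obtain ⟨s, hs, hes⟩ := Finset.mem_biUnion.mp he
  have key : ∀ a : Fin 3, (s = (Pool.Agent.EN2.mk q a).1 ∨ s = (Pool.Agent.EN2.mk q a).2) → ∃ (m : ℕ) (r : F), Sm O x y m r ∧
      (cp X (ptm d a) ^ m + r = 0 ∨ 1 ≤ ord e.1 (cp X (ptm d a) ^ m + r) + m * H K x y e) := by
    intro a ha
    have h1 : 1 ≤ (ptm d a).e s := by
      rw [ptm_e]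
      rcases ha with ha | ha
      · have : ind (Pool.Agent.EN2.mk q a).1 s = 1 := by rw [ind, if_pos ha]
        omega
      · have : ind (Pool.Agent.EN2.mk q a).2 s = 1 := by rw [ind, if_pos ha]
        omega
    obtain ⟨m, c, P, hc, hc0, hP, hor⟩ := tub D.hO D.surf X D.coord D.lin
      {i | 1 ≤ (XV.pt i).e s} e (htub s e hes) (XV.pt.symm (ptm d a)) (by
        show 1 ≤ (XV.pt (XV.pt.symm (ptm d a))).e s
        rw [Equiv.apply_symm_apply]
        exact h1)
    refine ⟨m, -(algebraMap K F c * eval₂ (toF O F) X P), ⟨c, hc, hc0, ?_⟩, ?_⟩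
    · have e1 : c⁻¹ • -(algebraMap K F c * eval₂ (toF O F) X P) = -eval₂ (toF O F) X P := by
        have hcF : algebraMap K F c ≠ 0 := by simpa using hc0
        rw [Algebra.smul_def, map_inv₀]
        field_simp
      rw [e1]
      exact intO_neg D.surf (intO_hom D.surf X D.coord P m hP)
    · rw [← sub_eq_add_neg]
      exact hor
  rcases hA s hs with h | h
  · obtain ⟨m, r, hr, hor⟩ := key a₀ h
    refine ⟨m, 0, r, hr, ?_⟩
    rw [pow_zero, mul_one]
    exact hor
  · obtain ⟨m, r, hr, hor⟩ := key a₁ h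
    refine ⟨0, m, r, by rwa [zero_add], ?_⟩
    rw [pow_zero, one_mul, zero_add]
    exact hor

lemma close_div {c : Pl O F} {κ : K} {A B U V : F} (h : κ • (A - B) ∈ c.W)
    (hU : c.res U ≠ 0) (e : V = (A - B) / U) : κ • V ∈ c.W := by
  rw [e, ← smul_div_assoc]
  exact c.div_mem h hU

/-- the pencils are coherent -/
lemma CD.coh (hX : XVS) (hE : GoodEqs E) [Fintype Pt] (D : CD E O x y t X) (s : K)
    (hs : s ^ p = t) (c : Comp O x y) (q : Fin 5) (a₀ a₁ : Fin 3) (e e' : Cm q) :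
    (s ^ (p + 1))⁻¹ • (cp X (ptm e a₁) / cp X (ptm e a₀) - cp X (ptm e' a₁) / cp X (ptm e' a₀)) ∈
      c.1.W := by
  have hne : ∀ p : Pt, p.w = 0 → c.1.res (cp X p) ≠ 0 := (D.gen hX hE c).1
  have h1 := D.binom hE c s hs {ptm e a₁, ptm e' a₀} {ptm e a₀, ptm e' a₁} (by simp) (by simp)
    (by simp) (by simp [ptm_w]) (fun n => by simp [ptm_e]; omega)
  simp only [Multiset.insert_eq_cons, Multiset.map_cons, Multiset.map_singleton,
    Multiset.prod_cons, Multiset.prod_singleton] at h1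
  have n0 : c.1.res (cp X (ptm e a₀)) ≠ 0 := hne _ (ptm_w _ _)
  have n1 : c.1.res (cp X (ptm e' a₀)) ≠ 0 := hne _ (ptm_w _ _)
  refine close_div h1 (U := cp X (ptm e a₀) * cp X (ptm e' a₀)) ?_ ?_
  · rw [c.1.res_mul (D.cp_comp c _) (D.cp_comp c _)]
    exact mul_ne_zero n0 n1
  · have m0 := c.1.ne_zero_of_res n0
    have m1 := c.1.ne_zero_of_res n1
    field_simp

/-- the relation between three pencils -/
lemma CD.rel (hX : XVS) (hE : GoodEqs E) [Fintype Pt] (D : CD E O x y t X) (s : K)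
    (hs : s ^ p = t) (c : Comp O x y) (p0 p1 p0' p1' r0 r1 : Pt) (w0 : p0.w = 0) (w1 : p1.w = 0)
    (w0' : p0'.w = 0) (w1' : p1'.w = 0) (v0 : r0.w = 0) (v1 : r1.w = 0)
    (he : ∀ n, p1.e n + p0'.e n + r0.e n = p0.e n + p1'.e n + r1.e n) :
    (s ^ (p + 1))⁻¹ • (cp X p1 / cp X p0 - cp X p1' / cp X p0' * (cp X r1 / cp X r0)) ∈ c.1.W := by
  have hne : ∀ p : Pt, p.w = 0 → c.1.res (cp X p) ≠ 0 := (D.gen hX hE c).1
  have h1 := D.binom hE c s hs {p1, p0', r0} {p0, p1', r1} (by simp) (by simp)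
    (by simp) (by simp [w0, w1, w0', w1', v0, v1]) (fun n => by
      have := he n
      simp only [Multiset.insert_eq_cons, Multiset.map_cons, Multiset.map_singleton,
        Multiset.sum_cons, Multiset.sum_singleton]
      omega)
  simp only [Multiset.insert_eq_cons, Multiset.map_cons, Multiset.map_singleton,
    Multiset.prod_cons, Multiset.prod_singleton] at h1
  have n0 := hne p0 w0
  have n1 := hne p0' w0'
  have n2 := hne r0 v0
  refine close_div h1 (U := cp X p0 * (cp X p0' * cp X r0)) ?_ ?_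
  · rw [c.1.res_mul (D.cp_comp c _) (mul_mem (D.cp_comp c _) (D.cp_comp c _)),
      c.1.res_mul (D.cp_comp c _) (D.cp_comp c _)]
    exact mul_ne_zero n0 (mul_ne_zero n1 n2)
  · have m0 := c.1.ne_zero_of_res n0
    have m1 := c.1.ne_zero_of_res n1
    have m2 := c.1.ne_zero_of_res n2
    field_simp

/-- the trinomial relation -/
lemma CD.trin [CharP K p] (hX : XVS) (hE : GoodEqs E) [Fintype Pt] (D : CD E O x y t X) (s : K)
    (hs : s ^ p = t) (c : Comp O x y) {q : Fin 5} (e : Cm q) {S : Polynomial ℤ}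
    (hS : Polynomial.C (p : ℤ) * S = Polynomial.X ^ p + (1 - Polynomial.X) ^ p - 1) :
    Trin c.1 p s S (cp X (ptm e 0) / cp X (ptm e 1))
      (cp X (ptm e 2) / cp X (ptm e 1)) := by
  have hp : p.Prime := Fact.out
  have hne : ∀ q : Pt, q.w = 0 → c.1.res (cp X q) ≠ 0 := (D.gen hX hE c).1
  have hchar : CharP (ResidueField c.1.W) p := charP_res p c.1
  obtain ⟨h1, h2⟩ := D.trinom hE c e
  have n0 := hne (ptm e 0) (ptm_w _ _)
  have n1 := hne (ptm e 1) (ptm_w _ _)
  have n2 := hne (ptm e 2) (ptm_w _ _)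
  have m1 := c.1.ne_zero_of_res n1
  have e1 : (s ^ p)⁻¹ • (1 - cp X (ptm e 0) / cp X (ptm e 1) - cp X (ptm e 2) / cp X (ptm e 1)) =
      -(t⁻¹ • (cp X (ptm e 0) + cp X (ptm e 2) - cp X (ptm e 1))) / cp X (ptm e 1) := by
    rw [hs, Algebra.smul_def, Algebra.smul_def]
    field_simp
    ring
  unfold Trin
  rw [e1]
  have h3 := neg_mem h1
  refine ⟨c.1.div_mem h3 n1, ?_⟩
  have h4 := h2 (hg S p (xc ℤ (ptm e 0)) (xc ℤ (ptm e 1))) (Sp_hom hp hS _ _)
  have h5 : c.1.res (aeval X (hg S p (xc ℤ (ptm e 0)) (xc ℤ (ptm e 1)))) =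
      hg S p (c.1.res (cp X (ptm e 0))) (c.1.res (cp X (ptm e 1))) := by
    rw [(res_int c.1 X (fun i => intO_comp D.surf (D.coord i) c.2) _).2]
    have := hg_map (MvPolynomial.eval₂Hom (Int.castRingHom (ResidueField c.1.W))
      (fun i => c.1.res (X i))) S p (xc ℤ (ptm e 0)) (xc ℤ (ptm e 1))
    rw [MvPolynomial.coe_eval₂Hom] at this
    rw [this]
    simp [xc, cp]
  rw [h5, hg_field S p (Sp_deg hp hS) _ _ n1] at h4
  have h6 : ∀ u : ResidueField c.1.W, (-u) ^ p = -u ^ p := fun u => by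
    have := map_neg (frobenius (ResidueField c.1.W) p) u
    simpa [frobenius_def] using this
  rw [c.1.res_div h3 n1, c.1.res_neg h1, div_pow, h6, h4, c.1.res_div (D.cp_comp c _) n1, neg_neg,
    mul_div_cancel_left₀ _ (pow_ne_zero _ n1), Polynomial.aeval_def]
  congr 1

/-- **END-2**: there are no two functions as in `Funs` on an exact surface. -/
theorem end2 [IsAlgClosed K] [CharP K p] (hSCQ : Stmt_SCQ) (hX : XVS) (hE : GoodEqs E)
    (D : CD E O x y t X) (CC : Edge → Finset (PP K x y))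
    (htub : ∀ s, ∀ e ∈ CC s, InTube O x y X {i | 1 ≤ (XV.pt i).e s} e.1) (a a' : F)
    (hF : Funs x y CC a a') : False := by
  classical
  have hFt : Fintype Pt := Fintype.ofEquiv _ XV.pt
  have hp : p.Prime := Fact.out
  obtain ⟨s, hs⟩ := IsAlgClosed.exists_pow_nat_eq t (n := p) hp.pos
  obtain ⟨S, hS⟩ := exists_Sp hp
  have hs0 : s ≠ 0 := by
    rintro rfl
    apply D.t_ne
    rw [← hs, zero_pow hp.ne_zero]
  have hsn : s ∈ O.nonunits := by
    rw [nu_iff]
    right
    intro h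
    refine nu_inv_not_mem D.t_mem D.t_ne ?_
    rw [← hs, ← inv_pow]
    exact pow_mem h p
  have hfin : Finite (Comp O x y) := comp_finite D.hO D.surf
  obtain ⟨c₀⟩ := comp_nonempty (O := O) D.surf
  obtain ⟨e, -⟩ := D.ncz hX.cov hX.tri hE 4 1 0 (by decide) c₀.1
  obtain ⟨e', -⟩ := D.ncz hX.cov hX.tri hE 3 1 0 (by decide) c₀.1
  obtain ⟨f, -⟩ := D.ncz hX.cov hX.tri hE 0 1 2 (by decide) c₀.1
  obtain ⟨f', -⟩ := D.ncz hX.cov hX.tri hE 2 2 1 (by decide) c₀.1
  obtain ⟨m1, m2, m3, m4, m5, m6, m7, m8, m9, m10⟩ := mk_vals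
  let PX := D.pen hSCQ hX hE 4 1 0 (by decide) e fun c d => ((D.gen hX hE c).2 d e' f f').2.1
  let PX' := D.pen hSCQ hX hE 3 1 0 (by decide) e' fun c d => ((D.gen hX hE c).2 e d f f').2.2.1
  let PY := D.pen hSCQ hX hE 4 1 2 (by decide) e fun c d => ((D.gen hX hE c).2 d e' f f').2.2.2.1
  let PY' := D.pen hSCQ hX hE 3 1 2 (by decide) e' fun c d =>
    ((D.gen hX hE c).2 e d f f').2.2.2.2.1
  let PW := D.pen hSCQ hX hE 0 1 2 (by decide) f fun c d =>
    ((D.gen hX hE c).2 e e' d f').2.2.2.2.2.1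
  let PW' := D.pen hSCQ hX hE 2 2 1 (by decide) f' fun c d =>
    ((D.gen hX hE c).2 e e' f d).2.2.2.2.2.2
  let D1 : Ch (fun c : Comp O x y => c.1) s (p + 1) :=
    { X := PX
      X' := PX'
      W := PW
      j := e
      j' := e'
      jw := f
      rel := fun c => D.rel hX hE s hs c _ _ _ _ _ _ rfl rfl rfl rfl rfl rfl (fun n => by
        rw [ptm_e, ptm_e, ptm_e, ptm_e, ptm_e, ptm_e, m1, m2, m4, m5, m7, m8]
        simp only
        omega)
      cX := fun c i i' => D.coh hX hE s hs c 4 1 0 i i'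
      cX' := fun c i i' => D.coh hX hE s hs c 3 1 0 i i'
      cW := fun c i i' => D.coh hX hE s hs c 0 1 2 i i' }
  let D2 : Ch (fun c : Comp O x y => c.1) s (p + 1) :=
    { X := PY
      X' := PY'
      W := PW'
      j := e
      j' := e'
      jw := f'
      rel := fun c => D.rel hX hE s hs c _ _ _ _ _ _ rfl rfl rfl rfl rfl rfl (fun n => by
        rw [ptm_e, ptm_e, ptm_e, ptm_e, ptm_e, ptm_e, m2, m3, m5, m6, m9, m10]
        simp only
        omega)
      cX := fun c i i' => D.coh hX hE s hs c 4 1 2 i i'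
      cX' := fun c i i' => D.coh hX hE s hs c 3 1 2 i i'
      cW := fun c i i' => D.coh hX hE s hs c 2 2 1 i i' }
  have hres : ∀ {q : Fin 5} (c : Comp O x y) (d : Cm q) (a₀ a₁ : Fin 3),
      c.1.res (cp X (ptm d a₁) / cp X (ptm d a₀)) = par (rs X c) d a₀ a₁ := by
    intro q c d a₀ a₁
    rw [c.1.res_div (D.cp_comp c _) ((D.gen hX hE c).1 _ (ptm_w d a₀))]
    rfl
  refine core (P := fun c : Comp O x y => c.1) p D.hO (comp_vg D.surf) (comp_ba D.surf) s hs0 hsn
    S hS D1 D2 (fun c => D.trin hX hE s hs c e hS)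
    (fun c => D.trin hX hE s hs c e' hS) ?_ a a' hF.nc hF.ne0' hF.ne1' ?_ ?_ ?_ ?_ ?_ ?_ c₀
  · intro c
    show ¬ AO (ResidueField O) (c.1.res (cp X (ptm e' 0) / cp X (ptm e' 1)))
      (c.1.res (cp X (ptm e 0) / cp X (ptm e 1)))
    rw [hres, hres]
    exact ((D.gen hX hE c).2 e e' f f').1
  · intro j
    exact D.reg CC htub 4 1 0 {XV.ed 0 2, XV.ed 1 3} (fun s hs => by
      rw [m2]
      simp only [Finset.mem_insert, Finset.mem_singleton] at hs
      exact Or.inl hs) a hF.reg j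
  · intro j
    exact D.reg CC htub 4 1 2 {XV.ed 0 2, XV.ed 1 3} (fun s hs => by
      rw [m2]
      simp only [Finset.mem_insert, Finset.mem_singleton] at hs
      exact Or.inl hs) a hF.reg j
  · intro j
    exact D.reg CC htub 3 1 0 {XV.ed 0 2, XV.ed 1 4} (fun s hs => by
      rw [m5]
      simp only [Finset.mem_insert, Finset.mem_singleton] at hs
      exact Or.inl hs) a' hF.reg' j
  · intro j
    exact D.reg CC htub 3 1 2 {XV.ed 0 2, XV.ed 1 4} (fun s hs => by
      rw [m5]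
      simp only [Finset.mem_insert, Finset.mem_singleton] at hs
      exact Or.inl hs) a' hF.reg' j
  · intro j
    exact D.reg CC htub 0 1 2 {XV.ed 2 3, XV.ed 1 4, XV.ed 1 3, XV.ed 2 4} (fun s hs => by
      rw [m7, m8]
      simp only [Finset.mem_insert, Finset.mem_singleton] at hs
      rcases hs with h | h | h | h
      · exact Or.inr (Or.inr h)
      · exact Or.inr (Or.inl h)
      · exact Or.inl (Or.inl h)
      · exact Or.inl (Or.inr h)) _ hF.quo j
  · intro j
    exact D.reg CC htub 2 2 1 {XV.ed 0 3, XV.ed 1 4, XV.ed 1 3, XV.ed 0 4} (fun s hs => by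
      rw [m9, m10]
      simp only [Finset.mem_insert, Finset.mem_singleton] at hs
      rcases hs with h | h | h | h
      · exact Or.inr (Or.inl h)
      · exact Or.inr (Or.inr h)
      · exact Or.inl (Or.inr h)
      · exact Or.inl (Or.inl h)) _ hF.quo1 j

/-- **END-2** in the form of the interface. -/
theorem stmt_end (hSCQ : Stmt_SCQ) (hX : XVS) : Stmt_EndP := by
  intro p _ J _ E hE T CC hCC a a' hF
  have D : CD E T.O T.x T.y T.t T.X :=
    { hO := T.arch
      surf := T.surf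
      t_ne := T.t_ne
      t_mem := T.t_mem
      coord := T.coord
      lin := by
        intro j
        fin_cases j
        · exact T.lin0
        · exact T.linx
        · exact T.liny
      close := T.close
      tube := T.tube }
  exact end2 hSCQ hX hE D CC hCC a a' hF

end Pool.Agent.EN2P
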