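import Pool.Agent.EN2P.Gens
import Pool.Agent.EN2.Coord
import Pool.Agent.FRM.HLB

/-!
# The coordinates on an exact surface in characteristic `p`
-/

set_option autoImplicit false

noncomputable section

namespace Pool.Agent.EN2P

open IsLocalRing Pool.Agent.ClaimF Pool.Agent.SRF Pool.Agent.DIS Pool.Agent.XV Pool.Agent.FRM
  Pool.Agent.EN2
open MvPolynomial (aeval eval₂ IsHomogeneous)

variable {K : Type} [Field K] {F : Type} [Field F] [Algebra K F] {J : Type} {p : ℕ}
  [Fact p.Prime]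

/-- The data of an exact surface. -/
structure CD (E : Eqs p XV.N J) (O : ValuationSubring K) (x y : F) (t : K)
    (X : Fin (XV.N + 1) → F) : Prop where
  hO : Arch O
  surf : IsSurf K x y
  t_ne : t ≠ 0
  t_mem : t ∈ O.nonunits
  coord : ∀ i, IntO O x y 1 (X i)
  lin : ∀ j : Fin 3, ∃ l : Fin (XV.N + 1) → O, z x y j = ∑ i, (l i : K) • X i
  close : ∀ j, IntO O x y (p * E.e j) (algebraMap K F (t⁻¹ ^ (p + 1)) *
    (aeval X (E.g j) ^ p + algebraMap K F (t ^ p) * aeval X (E.g₁ j)))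
  tube : ∀ i, 1 ≤ (XV.pt i).w → ∃ a ∈ O.nonunits, a ≠ 0 ∧ IntO O x y 1 (a⁻¹ • X i)

section int

/-- the polynomial `g₁` is homogeneous -/
lemma g₁_hom (E : Eqs p XV.N J) (j : J) : (E.g₁ j).IsHomogeneous (p * E.e j) := by
  have h1 : (MvPolynomial.C (p : ℤ) * E.g₁ j).IsHomogeneous (p * E.e j) := by
    rw [E.ghost j]
    refine MvPolynomial.IsHomogeneous.sub ?_ ?_
    · rw [(E.g j).as_sum, map_sum]
      refine MvPolynomial.IsHomogeneous.sum _ _ _ fun d hd => ?_
      rw [MvPolynomial.expand_monomial]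
      refine MvPolynomial.isHomogeneous_monomial _ ?_
      have h2 : d.degree = E.e j := by
        have := E.hom j (MvPolynomial.mem_support_iff.mp hd)
        rw [Finsupp.degree_eq_weight_one]
        exact this
      rw [map_nsmul, h2, smul_eq_mul]
    · have := (E.hom j).pow p
      rwa [mul_comm] at this
  intro d hd
  apply h1
  rw [MvPolynomial.coeff_C_mul]
  exact mul_ne_zero (by exact_mod_cast (Fact.out : p.Prime).ne_zero) hd

end int

section places

variable {E : Eqs p XV.N J} {O : ValuationSubring K} {x y : F} {t : K} {X : Fin (XV.N + 1) → F}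

lemma of_pow_mem {W : ValuationSubring F} {f : F} {n : ℕ} (hn : 0 < n) (h : f ^ n ∈ W) :
    f ∈ W := by
  by_contra hcon
  have h1 := nu_of_inv hcon
  have hf0 : f ≠ 0 := by
    rintro rfl
    exact hcon (zero_mem _)
  obtain ⟨m, rfl⟩ : ∃ m, n = m + 1 := ⟨n - 1, by omega⟩
  have h2 : (1 : F) = f ^ (m + 1) * (f⁻¹ ^ m * f⁻¹) := by
    rw [← pow_succ, ← mul_pow, mul_inv_cancel₀ hf0, one_pow]
  have h3 : (1 : F) ∈ W.nonunits := by
    rw [h2]
    exact nu_mul h (nu_mul (pow_mem (nu_mem h1) m) h1)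
  exact one_not_nu h3

/-- the equations hold modulo `t` -/
lemma CD.mod_t (D : CD E O x y t X) (W : Pl O F) (i : Fin 3) (hi : Mz x y W.W i) (j : J) :
    (algebraMap K F t)⁻¹ * (aeval X (E.g j) / z x y i ^ E.e j) ∈ W.W := by
  have hz := hi.1
  have htF : algebraMap K F t ≠ 0 := by simpa using D.t_ne
  have h1 := intO_at D.surf (D.close j) W i hi
  have hY : ∀ l, X l / z x y i ∈ W.W := by
    intro l
    have := intO_at D.surf (D.coord l) W i hi
    rwa [pow_one] at this
  have h2 : aeval X (E.g₁ j) / z x y i ^ (p * E.e j) ∈ W.W := by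
    rw [← hom_div X _ _ (g₁_hom E j)]
    exact (res_int W _ hY _).1
  apply of_pow_mem (Fact.out : p.Prime).pos
  have htW : algebraMap K F t ∈ W.W := W.mem_alg (nu_mem D.t_mem)
  have e : ((algebraMap K F t)⁻¹ * (aeval X (E.g j) / z x y i ^ E.e j)) ^ p =
      algebraMap K F t * (algebraMap K F (t⁻¹ ^ (p + 1)) * (aeval X (E.g j) ^ p +
        algebraMap K F (t ^ p) * aeval X (E.g₁ j)) / z x y i ^ (p * E.e j)) -
      aeval X (E.g₁ j) / z x y i ^ (p * E.e j) := by
    rw [map_pow, map_pow, map_inv₀, mul_pow, div_pow, ← pow_mul, mul_comm (E.e j) p, inv_pow,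
      inv_pow, pow_succ]
    have hz2 := pow_ne_zero (p * E.e j) hz
    have htp := pow_ne_zero p htF
    field_simp
    ring
  rw [e]
  exact sub_mem (mul_mem htW h1) h2

lemma cp_mem (D : CD E O x y t X) (W : Pl O F) (i : Fin 3) (hi : Mz x y W.W i) (c : Pt) :
    cp X c / z x y i ∈ W.W := by
  have := intO_at D.surf (D.coord (XV.pt.symm c)) W i hi
  rwa [pow_one] at this

/-- **The residues of the coordinates are a solution.** -/
lemma CD.isSol (hE : GoodEqs E) (D : CD E O x y t X) (W : Pl O F) (i : Fin 3)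
    (hi : Mz x y W.W i) : IsSol (fun c => W.res (cp X c / z x y i)) := by
  have hY : ∀ l, X l / z x y i ∈ W.W := by
    intro l
    have := intO_at D.surf (D.coord l) W i hi
    rwa [pow_one] at this
  let φ : MvPolynomial (Fin (XV.N + 1)) ℤ →+* ResidueField W.W :=
    MvPolynomial.eval₂Hom (Int.castRingHom _) (fun l => W.res (X l / z x y i))
  have h1 : XV.I ℤ ≤ RingHom.ker φ := by
    rw [← hE.span, Ideal.span_le]
    rintro _ ⟨j, rfl⟩
    rw [SetLike.mem_coe, RingHom.mem_ker]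
    show eval₂ (Int.castRingHom _) (fun l => W.res (X l / z x y i)) (E.g j) = 0
    rw [← (res_int W _ hY _).2, hom_div X _ _ (E.hom j)]
    apply W.res_nonunit
    have htF : algebraMap K F t ≠ 0 := by simpa using D.t_ne
    have e : aeval X (E.g j) / z x y i ^ E.e j = algebraMap K F t *
        ((algebraMap K F t)⁻¹ * (aeval X (E.g j) / z x y i ^ E.e j)) := by
      rw [← mul_assoc, mul_inv_cancel₀ htF, one_mul]
    rw [e]
    exact nu_mul' (W.alg_nonunit.mpr D.t_mem) (D.mod_t W i hi j)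
  intro g hg
  have h2 := h1 hg
  rw [RingHom.mem_ker] at h2
  have e : (fun l => W.res (cp X (XV.pt l) / z x y i)) = fun l => W.res (X l / z x y i) := by
    funext l
    rw [cp, Equiv.symm_apply_apply]
  show eval₂ (Int.castRingHom _) (fun l => W.res (cp X (XV.pt l) / z x y i)) g = 0
  rw [e]
  exact h2

/-- the coordinates with `w ≥ 1` vanish in the residue field -/
lemma CD.res_w (D : CD E O x y t X) (W : Pl O F) (i : Fin 3) (hi : Mz x y W.W i) (c : Pt)
    (hc : 1 ≤ c.w) : W.res (cp X c / z x y i) = 0 := by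
  obtain ⟨a, ha, ha0, h⟩ := D.tube (XV.pt.symm c) (by rwa [Equiv.apply_symm_apply])
  apply W.res_nonunit
  have h1 : Sm O x y 1 (cp X c) := ⟨a, ha, ha0, h⟩
  have := h1.at D.surf W i hi
  rwa [pow_one] at this

/-- `z_i` is a combination of the coordinates -/
lemma CD.lin' [Fintype Pt] (D : CD E O x y t X) (j : Fin 3) :
    ∃ l : Pt → O, z x y j = ∑ c, (l c : K) • cp X c := by
  obtain ⟨l, hl⟩ := D.lin j
  refine ⟨fun c => l (XV.pt.symm c), ?_⟩
  rw [hl, ← Equiv.sum_comp XV.pt]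
  refine Finset.sum_congr rfl fun i _ => ?_
  simp only [cp, Equiv.symm_apply_apply]

lemma CD.res_lin [Fintype Pt] (D : CD E O x y t X) (W : Pl O F) (i : Fin 3)
    (hi : Mz x y W.W i) (j : Fin 3) : ∃ l : Pt → ResidueField O,
      W.res (z x y j / z x y i) = ∑ c, l c • W.res (cp X c / z x y i) := by
  classical
  obtain ⟨l, hl⟩ := D.lin' j
  refine ⟨fun c => residue O (l c), ?_⟩
  have h1 : ∀ S : Finset Pt, (∑ c ∈ S, (l c : K) • (cp X c / z x y i)) ∈ W.W ∧
      W.res (∑ c ∈ S, (l c : K) • (cp X c / z x y i)) =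
      ∑ c ∈ S, residue O (l c) • W.res (cp X c / z x y i) := by
    intro S
    induction S using Finset.induction_on with
    | empty => simp
    | insert c S hc ih =>
      have h2 := cp_mem D W i hi c
      have h3 := W.smul_mem (l c).2 h2
      rw [Finset.sum_insert hc, Finset.sum_insert hc]
      refine ⟨add_mem h3 ih.1, ?_⟩
      rw [W.res_add h3 ih.1, ih.2, Algebra.smul_def, W.res_mul (W.mem_alg (l c).2) h2,
        W.res_algebraMap, Algebra.smul_def]
  rw [← (h1 Finset.univ).2]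
  congr 1
  rw [hl, Finset.sum_div]
  refine Finset.sum_congr rfl fun c _ => ?_
  rw [Algebra.smul_def, Algebra.smul_def, mul_div_assoc]

lemma CD.res_ne [Fintype Pt] (D : CD E O x y t X) (W : Pl O F) (i : Fin 3)
    (hi : Mz x y W.W i) : ∃ c, W.res (cp X c / z x y i) ≠ 0 := by
  by_contra hcon
  push Not at hcon
  obtain ⟨l, hl⟩ := D.res_lin W i hi i
  simp_rw [hcon, smul_zero, Finset.sum_const_zero] at hl
  rw [div_self hi.1, W.res_one] at hl
  exact one_ne_zero hl

/-- **The base locus of a pencil is empty.** -/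
lemma CD.ncz (hCov : Stmt_Cov) (hTri : Stmt_Tri) (hE : GoodEqs E) [Fintype Pt]
    (D : CD E O x y t X) (q : Fin 5) (a₀ a₁ : Fin 3) (ha : a₀ ≠ a₁) (W : Pl O F) :
    ∃ e : Cm q, (∀ i, z x y i / cp X (ptm e a₀) ∈ W.W) ∨
      ∀ i, z x y i / cp X (ptm e a₁) ∈ W.W := by
  obtain ⟨i, hi0, hi1⟩ := zmax (x := x) (y := y) W.W
  have hi : Mz x y W.W i := ⟨hi0, hi1⟩
  obtain ⟨e, he⟩ := exists_ptm2 hCov hTri (fun c => W.res (cp X c / z x y i)) (D.isSol hE W i hi)
    (D.res_w W i hi) (D.res_ne W i hi) q a₀ a₁ ha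
  have key : ∀ c : Pt, W.res (cp X c / z x y i) ≠ 0 → ∀ j, z x y j / cp X c ∈ W.W := by
    intro c hc j
    have h1 := W.inv_mem hc
    have h2 : cp X c ≠ 0 := by
      intro h0
      rw [h0, zero_div, W.res_zero] at hc
      exact hc rfl
    have e : z x y j / cp X c = z x y j / z x y i * (cp X c / z x y i)⁻¹ := by
      field_simp
    rw [e]
    exact mul_mem (hi1 j) h1
  refine ⟨e, ?_⟩
  rcases he with he | he
  · exact Or.inl (key _ he)
  · exact Or.inr (key _ he)

lemma CD.rs_sol (hE : GoodEqs E) (D : CD E O x y t X) (c : Comp O x y) : IsSol (rs X c) := by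
  rw [rs_eq]
  exact D.isSol hE c.1 0 (mz_comp c.2)

lemma CD.cp_comp (D : CD E O x y t X) (c : Comp O x y) (p : Pt) : cp X p ∈ c.1.W :=
  intO_comp D.surf (D.coord _) c.2

/-- **The generic behaviour of the coordinates at the components.** -/
lemma CD.gen (hX : XVS) (hE : GoodEqs E) [Fintype Pt] (D : CD E O x y t X)
    (c : Comp O x y) : (∀ p : Pt, p.w = 0 → rs X c p ≠ 0) ∧
      ∀ (e : Cm 4) (e' : Cm 3) (f : Cm 0) (f' : Cm 2),
      ¬ AO (ResidueField O) (par (rs X c) e' 1 0) (par (rs X c) e 1 0) ∧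
      Transcendental (ResidueField O) (par (rs X c) e 1 0) ∧
      Transcendental (ResidueField O) (par (rs X c) e' 1 0) ∧
      Transcendental (ResidueField O) (par (rs X c) e 1 2) ∧
      Transcendental (ResidueField O) (par (rs X c) e' 1 2) ∧
      Transcendental (ResidueField O) (par (rs X c) f 1 2) ∧
      Transcendental (ResidueField O) (par (rs X c) f' 2 1) := by
  have z0 : z x y 0 = 1 := rfl
  refine genB hX.sym hX.cov hX.chv hX.chr hX.bin hX.tri (rs X c) (D.rs_sol hE c) ?_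
    ![c.1.res x, c.1.res y] c.2.indep ?_ ?_
  · intro p hp
    rw [rs_eq]
    exact D.res_w c.1 0 (mz_comp c.2) p hp
  · obtain ⟨l, hl⟩ := D.res_lin c.1 0 (mz_comp c.2) 0
    refine ⟨l, ?_⟩
    rw [z0, div_one, c.1.res_one] at hl
    rw [hl]
    refine Finset.sum_congr rfl fun p _ => ?_
    rw [rs, div_one]
  · intro m
    fin_cases m
    · obtain ⟨l, hl⟩ := D.res_lin c.1 0 (mz_comp c.2) 1
      refine ⟨l, ?_⟩
      rw [z0, div_one] at hl
      show c.1.res x = _
      have z1 : z x y 1 = x := rfl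
      rw [z1] at hl
      rw [hl]
      refine Finset.sum_congr rfl fun p _ => ?_
      rw [rs, div_one]
    · obtain ⟨l, hl⟩ := D.res_lin c.1 0 (mz_comp c.2) 2
      refine ⟨l, ?_⟩
      rw [z0, div_one] at hl
      show c.1.res y = _
      have z2 : z x y 2 = y := rfl
      rw [z2] at hl
      rw [hl]
      refine Finset.sum_congr rfl fun p _ => ?_
      rw [rs, div_one]

/-- The pencil of the four points different from `q`, with two of the three matchings. -/
def CD.pen (hSCQ : Stmt_SCQ) (hX : XVS) (hE : GoodEqs E) [Fintype Pt]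
    (D : CD E O x y t X) (q : Fin 5) (a₀ a₁ : Fin 3) (ha : a₀ ≠ a₁) (e₀ : Cm q)
    (htr : ∀ (c : Comp O x y) (e : Cm q), Transcendental (ResidueField O) (par (rs X c) e a₀ a₁)) :
    Pen (fun c : Comp O x y => c.1) :=
  mkPen hSCQ D.hO D.surf e₀ (fun e : Cm q => cp X (ptm e a₀)) (fun e : Cm q => cp X (ptm e a₁))
    (fun e => D.coord _) (fun e => D.coord _)
    (fun c e => (D.gen hX hE c).1 _ (ptm_w e a₀)) (fun c e => (D.gen hX hE c).1 _ (ptm_w e a₁))
    (fun c e e' => by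
      have h0 : ∀ (e : Cm q) a, c.1.res (cp X (ptm e a)) ≠ 0 := fun e a =>
        (D.gen hX hE c).1 _ (ptm_w e a)
      rw [c.1.res_div (D.cp_comp c _) (h0 e a₀), c.1.res_div (D.cp_comp c _) (h0 e' a₀),
        div_eq_div_iff (h0 _ _) (h0 _ _)]
      exact bin2 hX.bin (rs X c) (D.rs_sol hE c) (ptm e a₁) (ptm e' a₀) (ptm e' a₁) (ptm e a₀)
        rfl (fun n => by
        rw [ptm_e, ptm_e, ptm_e, ptm_e]
        omega))
    (fun c e => by
      have h0 : c.1.res (cp X (ptm e a₀)) ≠ 0 := (D.gen hX hE c).1 _ (ptm_w e a₀)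
      rw [c.1.res_div (D.cp_comp c _) h0]
      exact htr c e)
    (D.ncz hX.cov hX.tri hE q a₀ a₁ ha)

/-- the equations at a component -/
lemma CD.comp_t (D : CD E O x y t X) (c : Comp O x y) (j : J) :
    (algebraMap K F t)⁻¹ * aeval X (E.g j) ∈ c.1.W ∧ (algebraMap K F t)⁻¹ ^ (p + 1) *
      (aeval X (E.g j) ^ p + algebraMap K F t ^ p * aeval X (E.g₁ j)) ∈ c.1.W := by
  have z0 : z x y 0 = 1 := rfl
  have h1 := D.mod_t c.1 0 (mz_comp c.2) j
  have h2 := intO_comp D.surf (D.close j) c.2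
  rw [z0, one_pow, div_one] at h1
  rw [map_pow, map_pow, map_inv₀] at h2
  exact ⟨h1, h2⟩

/-- values of integral polynomials -/
lemma CD.int_mem (D : CD E O x y t X) (c : Comp O x y)
    (g : MvPolynomial (Fin (XV.N + 1)) ℤ) : aeval X g ∈ c.1.W :=
  (res_int c.1 X (fun i => intO_comp D.surf (D.coord i) c.2) g).1

/-- a product of variables is a monomial -/
lemma prod_xc (α : Multiset Pt) : ∃ d : Fin (XV.N + 1) →₀ ℕ,
    (α.map (xc ℤ)).prod = MvPolynomial.monomial d 1 := by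
  induction α using Multiset.induction_on with
  | empty => exact ⟨0, by simp⟩
  | cons a α ih =>
    obtain ⟨d, hd⟩ := ih
    refine ⟨Finsupp.single (XV.pt.symm a) 1 + d, ?_⟩
    rw [Multiset.map_cons, Multiset.prod_cons, hd]
    unfold xc
    rw [MvPolynomial.X, MvPolynomial.monomial_mul, one_mul]

/-- **Binomials hold to the precision `t ^ ((p + 1) / p)`.** -/
lemma CD.binom (hE : GoodEqs E) (D : CD E O x y t X) (c : Comp O x y) (s : K) (hs : s ^ p = t)
    (α β : Multiset Pt) (h0 : 0 < Multiset.card α) (h4 : Multiset.card α ≤ 4)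
    (h1 : Multiset.card α = Multiset.card β) (hw : (α.map Pt.w).sum = (β.map Pt.w).sum)
    (he : ∀ k, (α.map fun c => c.e k).sum = (β.map fun c => c.e k).sum) :
    (s ^ (p + 1))⁻¹ • ((α.map (cp X)).prod - (β.map (cp X)).prod) ∈ c.1.W := by
  obtain ⟨j, hj⟩ := hE.bin α β h0 h4 h1 hw he
  obtain ⟨k1, k2⟩ := D.comp_t c j
  have hg : aeval X (E.g j) = (α.map (cp X)).prod - (β.map (cp X)).prod := by
    rw [hj, map_sub, aeval_xc, aeval_xc]
  obtain ⟨d, hd⟩ := prod_xc α
  obtain ⟨d', hd'⟩ := prod_xc β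
  obtain ⟨h, hh⟩ := HLB_.exists_h p XV.N d d' (E.g j) (E.g₁ j) (by rw [hj, hd, hd'])
    (E.ghost j)
  have hg₁ : aeval X (E.g₁ j) = aeval X h * aeval X (E.g j) := by rw [hh, map_mul]
  rw [hg₁] at k2
  rw [← hg]
  set g := aeval X (E.g j)
  have hbW : aeval X h ∈ c.1.W := D.int_mem c h
  have htF : algebraMap K F t ≠ 0 := by simpa using D.t_ne
  apply of_pow_mem (Fact.out : p.Prime).pos
  have e : ((s ^ (p + 1))⁻¹ • g) ^ p = (algebraMap K F t)⁻¹ ^ (p + 1) * (g ^ p +
      algebraMap K F t ^ p * (aeval X h * g)) - aeval X h * ((algebraMap K F t)⁻¹ * g) := by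
    have e1 : ((s ^ (p + 1))⁻¹) ^ p = t⁻¹ ^ (p + 1) := by
      rw [← hs, inv_pow, inv_pow, ← pow_mul, ← pow_mul, mul_comm]
    rw [smul_pow, e1, Algebra.smul_def, map_pow, map_inv₀, inv_pow, pow_succ]
    have htp := pow_ne_zero p htF
    field_simp
    ring
  rw [e]
  exact sub_mem k2 (mul_mem hbW k1)

/-- the ghost polynomial of a trinomial -/
lemma ghost1 {σ : Type} (hp : p.Prime) (a b c : σ) (g g₁ S : MvPolynomial σ ℤ)
    (hg : g = MvPolynomial.X a + MvPolynomial.X b - MvPolynomial.X c)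
    (hgh : MvPolynomial.C (p : ℤ) * g₁ = MvPolynomial.expand p g - g ^ p)
    (hS : MvPolynomial.C (p : ℤ) * S =
      MvPolynomial.X a ^ p + (MvPolynomial.X c - MvPolynomial.X a) ^ p - MvPolynomial.X c ^ p) :
    ∃ h : MvPolynomial σ ℤ, g₁ = S + g * h := by
  obtain ⟨r, hr⟩ := exists_add_pow_prime_eq hp
    (MvPolynomial.X a + MvPolynomial.X b - MvPolynomial.X c : MvPolynomial σ ℤ)
    (MvPolynomial.X c - MvPolynomial.X a)
  have hpz : (MvPolynomial.C (p : ℤ) : MvPolynomial σ ℤ) ≠ 0 := by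
    rw [Ne, MvPolynomial.C_eq_zero]
    exact_mod_cast hp.ne_zero
  refine ⟨(MvPolynomial.X c - MvPolynomial.X a) * r, mul_left_cancel₀ hpz ?_⟩
  have h1 : MvPolynomial.expand p
      (MvPolynomial.X a + MvPolynomial.X b - MvPolynomial.X c : MvPolynomial σ ℤ) =
      MvPolynomial.X a ^ p + MvPolynomial.X b ^ p - MvPolynomial.X c ^ p := by
    simp
  have h2 : (MvPolynomial.X a + MvPolynomial.X b - MvPolynomial.X c +
      (MvPolynomial.X c - MvPolynomial.X a) : MvPolynomial σ ℤ) = MvPolynomial.X b := by ring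
  have h3 : (MvPolynomial.C (p : ℤ) : MvPolynomial σ ℤ) = (p : MvPolynomial σ ℤ) := by
    simp
  rw [h2] at hr
  rw [mul_add, hgh, hS, hg, h1, hr, h3]
  ring

/-- **Trinomials.** -/
lemma CD.trinom (hE : GoodEqs E) (D : CD E O x y t X) (c : Comp O x y) {q : Fin 5} (e : Cm q) :
    t⁻¹ • (cp X (ptm e 0) + cp X (ptm e 2) - cp X (ptm e 1)) ∈ c.1.W ∧
      ∀ S : MvPolynomial (Fin (XV.N + 1)) ℤ, MvPolynomial.C (p : ℤ) * S =
          xc ℤ (ptm e 0) ^ p + (xc ℤ (ptm e 1) - xc ℤ (ptm e 0)) ^ p - xc ℤ (ptm e 1) ^ p →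
        c.1.res (t⁻¹ • (cp X (ptm e 0) + cp X (ptm e 2) - cp X (ptm e 1))) ^ p =
          -c.1.res (aeval X S) := by
  obtain ⟨l1, l2, l3⟩ := q4_lt q
  obtain ⟨j, hj⟩ := hE.tri _ _ _ _ l1 l2 l3 e.1 (ptm e 0) (ptm e 1) (ptm e 2) rfl rfl
    (fun n => rfl) (fun n => rfl) (fun n => rfl)
  obtain ⟨k1, k2⟩ := D.comp_t c j
  have hxc : ∀ q : Pt, aeval X (xc ℤ q) = cp X q := by
    intro q
    simp [xc, cp]
  have hg : aeval X (E.g j) = cp X (ptm e 0) + cp X (ptm e 2) - cp X (ptm e 1) := by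
    rw [hj, map_sub, map_add, hxc, hxc, hxc]
  rw [← hg]
  have htF : algebraMap K F t ≠ 0 := by simpa using D.t_ne
  have k3 : t⁻¹ • aeval X (E.g j) ∈ c.1.W := by
    rw [Algebra.smul_def, map_inv₀]
    exact k1
  refine ⟨k3, fun S hS => ?_⟩
  obtain ⟨h, hh⟩ := ghost1 (Fact.out : p.Prime) (XV.pt.symm (ptm e 0)) (XV.pt.symm (ptm e 2))
    (XV.pt.symm (ptm e 1)) (E.g j) (E.g₁ j) S hj (E.ghost j) hS
  rw [hh, map_add, map_mul] at k2
  have SW : aeval X S ∈ c.1.W := D.int_mem c S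
  have hW : aeval X h ∈ c.1.W := D.int_mem c h
  set g := aeval X (E.g j)
  have k4 : (t⁻¹ • g) ^ p + aeval X S ∈ c.1.W.nonunits := by
    have e : (t⁻¹ • g) ^ p + aeval X S = algebraMap K F t * ((algebraMap K F t)⁻¹ ^ (p + 1) *
        (g ^ p + algebraMap K F t ^ p * (aeval X S + g * aeval X h)) -
        aeval X h * ((algebraMap K F t)⁻¹ * g)) := by
      rw [Algebra.smul_def, map_inv₀, mul_pow, inv_pow, inv_pow, pow_succ]
      have htp := pow_ne_zero p htF
      field_simp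
      ring
    rw [e]
    exact nu_mul' (c.1.alg_nonunit.mpr D.t_mem) (sub_mem k2 (mul_mem hW k1))
  have k5 := c.1.res_nonunit k4
  rw [c.1.res_add (pow_mem k3 _) SW, c.1.res_pow k3] at k5
  exact eq_neg_of_add_eq_zero_left k5

end places

end Pool.Agent.EN2P
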