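import Pool.Agent.EN2.Gens

/-!
# Generic solutions in all characteristics
-/

set_option autoImplicit false

noncomputable section

namespace Pool.Agent.EN2P

open Pool.Agent.XV MvPolynomial Pool.Agent.ClaimF Pool.Agent.EN2

section gen

variable {k L : Type} [Field k] [Field L] [Algebra k L]

/-- twisting changes the coordinates by signs -/
lemma tws_pm (π : Equiv.Perm (Fin 5)) (s : Pt → L) (c : Pt) :
    tws π s c = s (act π c) ∨ tws π s c = -s (act π c) := by
  unfold tws
  have : sgn π c = 1 ∨ sgn π c = -1 := by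
    unfold sgn
    have : ∀ S : Finset (Fin 10), (∏ k ∈ S, sg π k ^ c.e k = 1) ∨
        (∏ k ∈ S, sg π k ^ c.e k = -1) := by
      intro S
      induction S using Finset.induction_on with
      | empty => simp
      | insert a S ha ih =>
        rw [Finset.prod_insert ha]
        have h1 : sg π a ^ c.e a = 1 ∨ sg π a ^ c.e a = -1 := by
          unfold sg
          split_ifs
          · left; simp
          · exact neg_one_pow_eq_or ℤ _
        rcases h1 with h1 | h1 <;> rcases ih with h2 | h2 <;> rw [h1, h2] <;> simp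
    exact this _
  rcases this with h | h
  · left
    rw [h]
    simp
  · right
    rw [h]
    simp

/-- **The parameters of the pencils are algebraically independent.** -/
lemma genB (hSym : Stmt_Sym) (hCov : Stmt_Cov) (hChv : Stmt_Chv) (hChr : Stmt_Chr)
    (hBin : Stmt_Bin) (hTri : Stmt_Tri) (s : Pt → L) (hs : IsSol s)
    (hw : ∀ c, 1 ≤ c.w → s c = 0) [Fintype Pt] (ζ : Fin 2 → L) (hζ : AlgebraicIndependent k ζ)
    (hone : ∃ l : Pt → k, 1 = ∑ c, l c • s c) (hlin : ∀ m, ∃ l : Pt → k, ζ m = ∑ c, l c • s c) :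
    (∀ c, c.w = 0 → s c ≠ 0) ∧ ∀ (e : Cm 4) (e' : Cm 3) (f : Cm 0) (f' : Cm 2),
      ¬ AO k (par s e' 1 0) (par s e 1 0) ∧ Transcendental k (par s e 1 0) ∧
      Transcendental k (par s e' 1 0) ∧ Transcendental k (par s e 1 2) ∧
      Transcendental k (par s e' 1 2) ∧ Transcendental k (par s f 1 2) ∧
      Transcendental k (par s f' 2 1) := by
  classical
  have hs0 : ∃ c, s c ≠ 0 := by
    by_contra hcon
    push Not at hcon
    obtain ⟨l, hl⟩ := hone
    simp_rw [hcon, smul_zero, Finset.sum_const_zero] at hl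
    exact one_ne_zero hl
  obtain ⟨π, h1, h2⟩ := chart_zero hCov s hs hw hs0
  obtain ⟨-, hne⟩ := genA hSym hChv hChr s hs hw ζ hζ hone hlin π h1 h2
  refine ⟨hne, fun e e' f f' => ?_⟩
  have hne' : ∀ c, c.w = 0 → tws π₀ s c ≠ 0 := by
    intro c hc
    have h := hne (act π₀ c) hc
    rcases tws_pm π₀ s c with h' | h' <;> rw [h']
    · exact h
    · exact neg_ne_zero.mpr h
  obtain ⟨hind, -⟩ := genA hSym hChv hChr s hs hw ζ hζ hone hlin π₀ (hne' _ tw_zero.1)
    (fun j => hne' _ (tw_zero.2 j))
  set c0 := act π₀ (tp 0 0) with hc0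
  set c1 := act π₀ (tp 0 1) with hc1
  set c2 := act π₀ (tp 0 2) with hc2
  have w0 : c0.w = 0 := tw_zero.1
  have w1 : c1.w = 0 := by show tw 0 1 = 0; decide
  have w2 : c2.w = 0 := by show tw 0 2 = 0; decide
  have n0 := hne c0 w0
  have n1 := hne c1 w1
  have n2 := hne c2 w2
  have np : ∀ {q : Fin 5} (e : Cm q) (a : Fin 3), s (ptm e a) ≠ 0 := fun e a => hne _ rfl
  have hq : ∀ c c' : Pt, tws π₀ s c / tws π₀ s c' = s (act π₀ c) / s (act π₀ c') ∨
      tws π₀ s c / tws π₀ s c' = -(s (act π₀ c) / s (act π₀ c')) := by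
    intro c c'
    rcases tws_pm π₀ s c with h | h <;> rcases tws_pm π₀ s c' with h' | h' <;> rw [h, h']
    · exact Or.inl rfl
    · exact Or.inr (div_neg _)
    · exact Or.inr (neg_div _ _)
    · exact Or.inl (neg_div_neg_eq _ _)
  replace hind : AlgebraicIndependent k ![s c1 / s c0, s c2 / s c0] := by
    refine indep_of_mem _ _ _ hind fun m => ?_
    have a1 : s c1 / s c0 ∈ IntermediateField.adjoin k {s c1 / s c0, s c2 / s c0} :=
      IntermediateField.subset_adjoin k _ (Set.mem_insert _ _)
    have a2 : s c2 / s c0 ∈ IntermediateField.adjoin k {s c1 / s c0, s c2 / s c0} :=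
      IntermediateField.subset_adjoin k _ (Set.mem_insert_of_mem _ rfl)
    fin_cases m
    · rcases hq (tp 0 1) (tp 0 0) with h | h
      · exact h ▸ a1
      · exact h ▸ neg_mem a1
    · rcases hq (tp 0 2) (tp 0 0) with h | h
      · exact h ▸ a2
      · exact h ▸ neg_mem a2
  set X₁ := s c1 / s c0 with hX₁
  set X₂ := s c2 / s c0 with hX₂
  obtain ⟨m1, m2, m3, m4, m5, m6, m7, m8, m9, m10⟩ := mk_vals
  -- the two parameters
  have p1 : par s e 1 0 = X₁ := by
    have h := bin2 hBin s hs c1 (ptm e 1) c0 (ptm e 0) (by rw [w0, w1]; rfl) (fun n => by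
      rw [ptm_e, ptm_e, m1, m2]
      have h1 := π₀_one n
      rw [← hc0, ← hc1] at h1
      simp only
      omega)
    unfold par
    rw [hX₁, div_eq_div_iff (np _ _) n0]
    linear_combination -h
  have p2 : par s e' 1 0 = X₁ * X₂ := by
    have h := bin3 hBin s hs c1 c2 (ptm e' 1) c0 c0 (ptm e' 0)
      (by rw [w0, w1, w2]; rfl) (fun n => by
      rw [ptm_e, ptm_e, m4, m5]
      have h1 := π₀_one n
      have h2 := π₀_two n
      rw [← hc0, ← hc1] at h1
      rw [← hc0, ← hc2] at h2
      simp only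
      omega)
    unfold par
    rw [hX₁, hX₂, div_mul_div_comm, div_eq_div_iff (np _ _) (mul_ne_zero n0 n0)]
    linear_combination -h
  have hI : AlgebraicIndependent k ![X₁, X₁ * X₂] := by
    refine indep_of_mem _ _ _ hind fun m => ?_
    have a1 : X₁ ∈ IntermediateField.adjoin k {X₁, X₁ * X₂} :=
      IntermediateField.subset_adjoin k _ (Set.mem_insert _ _)
    have a2 : X₁ * X₂ ∈ IntermediateField.adjoin k {X₁, X₁ * X₂} :=
      IntermediateField.subset_adjoin k _ (Set.mem_insert_of_mem _ rfl)
    fin_cases m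
    · exact a1
    · have h := div_mem a2 a1
      rw [mul_div_cancel_left₀ _ (div_ne_zero n1 n0)] at h
      exact h
  have hao : ¬ AO k (par s e' 1 0) (par s e 1 0) := by
    rw [p1, p2]
    exact not_ao_of_indep hI
  have ht1 : Transcendental k (par s e 1 0) := trans_of hao
  have ht2 : Transcendental k (par s e' 1 0) := by
    rw [p2]
    exact hI.transcendental 1
  have q1 : par s e 1 2 = 1 - par s e 1 0 := by
    have h := plucker hTri s hs e
    unfold par
    rw [eq_sub_iff_add_eq, ← add_div, div_eq_one_iff_eq (np _ _), h]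
    ring
  have q2 : par s e' 1 2 = 1 - par s e' 1 0 := by
    have h := plucker hTri s hs e'
    unfold par
    rw [eq_sub_iff_add_eq, ← add_div, div_eq_one_iff_eq (np _ _), h]
    ring
  have q3 : par s f 1 2 = par s e 1 0 / par s e' 1 0 := by
    have h := bin3 hBin s hs (ptm e 0) (ptm e' 1) (ptm f 1) (ptm e 1) (ptm e' 0) (ptm f 2)
      rfl (fun n => by
      rw [ptm_e, ptm_e, ptm_e, ptm_e, ptm_e, ptm_e, m1, m2, m4, m5, m7, m8]
      simp only
      omega)
    unfold par
    have := np e 0
    have := np e 1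
    have := np e' 0
    have := np e' 1
    have := np f 1
    field_simp
    linear_combination -h
  have q4 : par s f' 2 1 = par s e 1 2 / par s e' 1 2 := by
    have h := bin3 hBin s hs (ptm e 2) (ptm e' 1) (ptm f' 2) (ptm e 1) (ptm e' 2) (ptm f' 1)
      rfl (fun n => by
      rw [ptm_e, ptm_e, ptm_e, ptm_e, ptm_e, ptm_e, m2, m3, m5, m6, m9, m10]
      simp only
      omega)
    unfold par
    have := np e 2
    have := np e 1
    have := np e' 2
    have := np e' 1
    have := np f' 2
    field_simp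
    linear_combination -h
  have hx'0 : par s e' 1 0 ≠ 0 := div_ne_zero (np _ _) (np _ _)
  have hy'0 : par s e' 1 2 ≠ 0 := div_ne_zero (np _ _) (np _ _)
  have self' : par s e' 1 0 ∈ cl k (par s e' 1 0) := self_mem_cl _
  have alg_cl : ∀ y : L, IsAlgebraic k y → y ∈ cl k (par s e' 1 0) := by
    intro y hy
    rw [mem_cl]
    exact ao_of_alg hy
  refine ⟨hao, ht1, ht2, ?_, ?_, ?_, ?_⟩
  · intro h
    apply ht1
    rw [q1] at h
    have := (isAlgebraic_one (R := k) (A := L)).sub h
    rwa [sub_sub_cancel] at this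
  · intro h
    apply ht2
    rw [q2] at h
    have := (isAlgebraic_one (R := k) (A := L)).sub h
    rwa [sub_sub_cancel] at this
  · intro h
    apply hao
    rw [← mem_cl]
    have e1 : par s e 1 0 = par s f 1 2 * par s e' 1 0 := by
      rw [q3, div_mul_cancel₀ _ hx'0]
    rw [e1]
    exact mul_mem (alg_cl _ h) self'
  · intro h
    apply hao
    rw [← mem_cl]
    have e1 : par s e 1 0 = 1 - par s f' 2 1 * (1 - par s e' 1 0) := by
      rw [q4, ← q2, div_mul_cancel₀ _ hy'0, q1]
      ring
    rw [e1]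
    exact sub_mem (one_mem _) (mul_mem (alg_cl _ h) (sub_mem (one_mem _) self'))

end gen

end Pool.Agent.EN2P
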